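import Mathlib
import Pool.Agent.Helper617.RM.ACATools
import Pool.Agent.Helper617.RM.SeqCodes

namespace Pool.Agent.H675R2.HT

open Pool.Agent.Helper617.RM

universe u

set_option linter.unusedSectionVars false
set_option linter.unusedVariables false

variable {N : L2Structure.{u}} [IsModelRCA0 N]

theorem lt1 (a : N.M) : a < a + 1 := lt_succ_self' a

theorem le_of_lt1 {a b : N.M} (h : a < b + 1) : a ≤ b := lt_add_one_iff'.1 h

theorem lt1_of_le {a b : N.M} (h : a ≤ b) : a < b + 1 := lt_add_one_iff'.2 h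

theorem succ_le' {a b : N.M} (h : a < b) : a + 1 ≤ b := add_one_le_iff'.2 h

section aca

variable [Sig1 N]

theorem fun_D0 {f : N.M → N.M} (hf : D0 (fun v => v 1 = f (v 0))) {s t : Ctx N → N.M}
    (hs : Tm s) (ht : Tm t) : D0 (fun v => t v = f (s v)) :=
  D0.rel (R := fun k x => x = f k) hf hs ht

/-- arithmetical induction -/
theorem ind {P : N.M → Prop} (hP : D0 (fun v => P (v 0))) (h0 : P 0)
    (hs : ∀ n, P n → P (n + 1)) (n : N.M) : P n := ind_D0 hP h0 hs n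

theorem mono_of_step {f : N.M → N.M} (hf : D0 (fun v => v 1 = f (v 0)))
    (h : ∀ n, f n < f (n + 1)) : ∀ i j, i < j → f i < f j := by
  intro i j
  have key : ∀ j, ∀ a b, a = f i → b = f j → i < j → a < b := by
    intro j
    refine ind (P := fun j => ∀ a b, a = f i → b = f j → i < j → a < b) ?_ ?_ ?_ j
    · refine D0.all (D0.all (D0.imp (fun_D0 hf (Tm.const i) (Tm.var 1))
        (D0.imp (fun_D0 hf (Tm.var 2) (Tm.var 0)) ?_)))
      (repeat' (first | exact Tm.zero | exact Tm.one | exact Tm.var _ | assumption | refine Tm.add ?_ ?_ | refine Tm.mul ?_ ?_ | refine Tm.pr ?_ ?_ | exact Tm.const _ | refine MemC_D0 ?_ ?_ | refine IsC_D0 ?_ | refine D0.and ?_ ?_ | refine D0.or ?_ ?_ | refine D0.ex ?_ | refine D0.all ?_ | refine D0.iff ?_ ?_ | refine D0.imp ?_ ?_ | refine D0.not ?_ | refine D0.lt ?_ ?_ | refine D0.le ?_ ?_ | refine D0.eq ?_ ?_ | refine D0.mem ?_ ?_ | exact D0.true | exact D0.false | exact D0.const _))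
    · intro a b _ _ hi
      exact absurd hi (not_lt_of_ge (zero_le' i))
    · intro j ih a b ha hb hij
      subst ha hb
      rcases lt_or_eq_of_le (le_of_lt1 hij) with h1 | rfl
      · exact (ih _ _ rfl rfl h1).trans (h j)
      · exact h i
  exact fun hij => key j _ _ rfl rfl hij

theorem le_of_step {f : N.M → N.M} (hf : D0 (fun v => v 1 = f (v 0)))
    (h : ∀ n, f n < f (n + 1)) : ∀ n, n ≤ f n := by
  intro n
  have key : ∀ a, a = f n → n ≤ a := by
    refine ind (P := fun n => ∀ a, a = f n → n ≤ a) ?_ ?_ ?_ n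
    · refine D0.all (D0.imp (fun_D0 hf (Tm.var 1) (Tm.var 0)) ?_)
      (repeat' (first | exact Tm.zero | exact Tm.one | exact Tm.var _ | assumption | refine Tm.add ?_ ?_ | refine Tm.mul ?_ ?_ | refine Tm.pr ?_ ?_ | exact Tm.const _ | refine MemC_D0 ?_ ?_ | refine IsC_D0 ?_ | refine D0.and ?_ ?_ | refine D0.or ?_ ?_ | refine D0.ex ?_ | refine D0.all ?_ | refine D0.iff ?_ ?_ | refine D0.imp ?_ ?_ | refine D0.not ?_ | refine D0.lt ?_ ?_ | refine D0.le ?_ ?_ | refine D0.eq ?_ ?_ | refine D0.mem ?_ ?_ | exact D0.true | exact D0.false | exact D0.const _))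
    · intro a _; exact zero_le' a
    · intro n ih a ha
      subst ha
      exact succ_le' (lt_of_le_of_lt (ih _ rfl) (h n))
  exact key _ rfl

/-- a solution (for sums of at most two elements) of colour `K` -/
def Solved (C : Set N.M) : Prop :=
  ∃ K : Prop, ∃ X ∈ N.Sets, (∀ b, ∃ x ∈ X, b < x) ∧ (∀ x ∈ X, (x ∈ C ↔ K)) ∧
    ∀ x ∈ X, ∀ y ∈ X, x < y → (x + y ∈ C ↔ K)

/-- building a solution step by step -/
theorem solve {C P : Set N.M} (hC : C ∈ N.Sets) (hP : P ∈ N.Sets) (K : Prop)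
    (h : ∀ x, ∃ x', x < x' ∧ x' ∈ P ∧ (x' ∈ C ↔ K) ∧ ∀ z, z ≤ x → z ∈ P → (z + x' ∈ C ↔ K)) :
    Solved C := by
  obtain ⟨a, _, ha1, ha2, _⟩ := h 0
  obtain ⟨f, hf, hf0, hfI, hfS⟩ := dc (N := N) (Inv := fun e => e ∈ P ∧ (e ∈ C ↔ K))
    (St := fun e e' => e < e' ∧ ∀ z, z ≤ e → z ∈ P → (z + e' ∈ C ↔ K))
    (by (repeat' (first | exact Tm.zero | exact Tm.one | exact Tm.var _ | assumption | refine Tm.add ?_ ?_ | refine Tm.mul ?_ ?_ | refine Tm.pr ?_ ?_ | exact Tm.const _ | refine MemC_D0 ?_ ?_ | refine IsC_D0 ?_ | refine D0.and ?_ ?_ | refine D0.or ?_ ?_ | refine D0.ex ?_ | refine D0.all ?_ | refine D0.iff ?_ ?_ | refine D0.imp ?_ ?_ | refine D0.not ?_ | refine D0.lt ?_ ?_ | refine D0.le ?_ ?_ | refine D0.eq ?_ ?_ | refine D0.mem ?_ ?_ | exact D0.true | exact D0.false | exact D0.const _))) (by (repeat' (first | exact Tm.zero | exact Tm.one | exact Tm.var _ | assumption | refine Tm.add ?_ ?_ | refine Tm.mul ?_ ?_ | refine Tm.pr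 ?_ ?_ | exact Tm.const _ | refine MemC_D0 ?_ ?_ | refine IsC_D0 ?_ | refine D0.and ?_ ?_ | refine D0.or ?_ ?_ | refine D0.ex ?_ | refine D0.all ?_ | refine D0.iff ?_ ?_ | refine D0.imp ?_ ?_ | refine D0.not ?_ | refine D0.lt ?_ ?_ | refine D0.le ?_ ?_ | refine D0.eq ?_ ?_ | refine D0.mem ?_ ?_ | exact D0.true | exact D0.false | exact D0.const _))) (fun e _ => by
      obtain ⟨x', h1, h2, h3, h4⟩ := h e
      exact ⟨x', ⟨h1, h4⟩, h2, h3⟩) (a := a) ⟨ha1, ha2⟩
  have hmono := mono_of_step hf fun n => (hfS n).1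
  refine ⟨K, {y | ∃ n, y = f n}, comp_D0 (P := fun y => ∃ n, y = f n) ?_, ?_, ?_, ?_⟩
  · exact D0.ex (fun_D0 hf (Tm.var 0) (Tm.var 1))
  · intro b
    exact ⟨f (b + 1), ⟨_, rfl⟩, lt_of_lt_of_le (lt1 b) (le_of_step hf (fun n => (hfS n).1) _)⟩
  · rintro _ ⟨n, rfl⟩
    exact (hfI n).2
  · rintro _ ⟨i, rfl⟩ _ ⟨j, rfl⟩ hij
    have hij' : i < j := by
      rcases lt_trichotomy i j with h1 | h1 | h1
      · exact h1
      · rw [h1] at hij; exact absurd hij (lt_irrefl _)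
      · exact absurd (hij.trans (hmono _ _ h1)) (lt_irrefl _)
    rcases eq_zero_or_succ j with rfl | ⟨j', rfl⟩
    · exact absurd hij' (not_lt_of_ge (zero_le' i))
    · refine (hfS j').2 _ ?_ (hfI i).1
      rcases lt_or_eq_of_le (le_of_lt1 hij') with h1 | rfl
      · exact (hmono _ _ h1).le
      · exact le_rfl

end aca

end Pool.Agent.H675R2.HT
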