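import Mathlib
import Pool.Agent.H675R2.HT.Sol

namespace Pool.Agent.H675R2.HT

open Pool.Agent.Helper617.RM

universe u

set_option linter.unusedSectionVars false
set_option linter.unusedVariables false

variable {N : L2Structure.{u}} [IsModelRCA0 N] [Sig1 N]

/-- `A` is the limit of shifts of the colouring `C` -/
def LimOf (C A : Set N.M) : Prop :=
  ∀ l b : N.M, ∃ y, b ≤ y ∧ ∀ i, i < l → (y + i ∈ C ↔ i ∈ A)

/-- if a limit `A` of shifts of `C` returns to itself at times `2k` at which `A` is not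
close to itself at time `k`, then `C` has a solution -/
theorem solved_of_half {C A : Set N.M} (hC : C ∈ N.Sets) (hA : A ∈ N.Sets)
    (h1 : LimOf C A) (L : N.M)
    (h2 : ∀ l : N.M, ∃ k, (∀ i, i < l → (k + k + i ∈ A ↔ i ∈ A)) ∧
      ∃ n, n < L ∧ ¬ (k + n ∈ A ↔ n ∈ A)) : Solved C := by
  -- pigeonhole
  obtain ⟨n, hn⟩ : ∃ n, ∀ l : N.M, ∃ k, (∀ i, i < l → (k + k + i ∈ A ↔ i ∈ A)) ∧
      ¬ (k + n ∈ A ↔ n ∈ A) := by
    by_contra hcon
    push Not at hcon
    obtain ⟨b, hb⟩ := bounding (Q := fun n l => ∀ k, (∀ i, i < l → (k + k + i ∈ A ↔ i ∈ A)) →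
      (k + n ∈ A ↔ n ∈ A)) (by (repeat' (first | exact Tm.zero | exact Tm.one | exact Tm.var _ | assumption | refine Tm.add ?_ ?_ | refine Tm.mul ?_ ?_ | refine Tm.pr ?_ ?_ | exact Tm.const _ | refine MemC_D0 ?_ ?_ | refine IsC_D0 ?_ | refine D0.and ?_ ?_ | refine D0.or ?_ ?_ | refine D0.ex ?_ | refine D0.all ?_ | refine D0.iff ?_ ?_ | refine D0.imp ?_ ?_ | refine D0.not ?_ | refine D0.lt ?_ ?_ | refine D0.le ?_ ?_ | refine D0.eq ?_ ?_ | refine D0.mem ?_ ?_ | exact D0.true | exact D0.false | exact D0.const _))) L (fun n _ => hcon n)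
    obtain ⟨k, hk, n, hn, hne⟩ := h2 b
    obtain ⟨l, hl, h⟩ := hb n hn
    exact hne (h k fun i hi => hk i (hi.trans hl))
  by_cases hcase : ∃ m : N.M, ∀ l b : N.M, ∃ y, b ≤ y ∧ (∀ i, i < l → (y + i ∈ C ↔ i ∈ A)) ∧
      (y + (m + m) ∈ A ↔ m ∈ A)
  · obtain ⟨m, hm⟩ := hcase
    refine solve (P := {z | (m + z ∈ A ↔ m ∈ A)}) hC (comp_D0 (P := fun z => (m + z ∈ A ↔ m ∈ A))
      (by (repeat' (first | exact Tm.zero | exact Tm.one | exact Tm.var _ | assumption | refine Tm.add ?_ ?_ | refine Tm.mul ?_ ?_ | refine Tm.pr ?_ ?_ | exact Tm.const _ | refine MemC_D0 ?_ ?_ | refine IsC_D0 ?_ | refine D0.and ?_ ?_ | refine D0.or ?_ ?_ | refine D0.ex ?_ | refine D0.all ?_ | refine D0.iff ?_ ?_ | refine D0.imp ?_ ?_ | refine D0.not ?_ | refine D0.lt ?_ ?_ | refine D0.le ?_ ?_ | refine D0.eq ?_ ?_ | refine D0.mem ?_ ?_ | exact D0.true | exact D0.false | exact D0.const _)))) (m ∈ A) fun x => ?_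
    obtain ⟨y, hy, hyC, hyA⟩ := hm (m + x + 1) (x + 1)
    refine ⟨m + y, ?_, ?_, ?_, ?_⟩
    · have := lt1 x
      have := zero_le' m
      grind
    · show m + (m + y) ∈ A ↔ m ∈ A
      rw [← hyA]
      have : m + (m + y) = y + (m + m) := by ring
      rw [this]
    · rw [add_comm m y]
      exact hyC m (lt1_of_le (le_add_of_nonneg_right (zero_le' x)))
    · intro z hz hzP
      have e : z + (m + y) = y + (m + z) := by ring
      rw [e, hyC (m + z) (lt1_of_le (by gcongr))]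
      exact hzP
  · push Not at hcase
    refine solve (P := {z | (n + z ∈ A ↔ n ∈ A)}) hC (comp_D0 (P := fun z => (n + z ∈ A ↔ n ∈ A))
      (by (repeat' (first | exact Tm.zero | exact Tm.one | exact Tm.var _ | assumption | refine Tm.add ?_ ?_ | refine Tm.mul ?_ ?_ | refine Tm.pr ?_ ?_ | exact Tm.const _ | refine MemC_D0 ?_ ?_ | refine IsC_D0 ?_ | refine D0.and ?_ ?_ | refine D0.or ?_ ?_ | refine D0.ex ?_ | refine D0.all ?_ | refine D0.iff ?_ ?_ | refine D0.imp ?_ ?_ | refine D0.not ?_ | refine D0.lt ?_ ?_ | refine D0.le ?_ ?_ | refine D0.eq ?_ ?_ | refine D0.mem ?_ ?_ | exact D0.true | exact D0.false | exact D0.const _)))) (n ∈ A) fun x => ?_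
    obtain ⟨k, hk, hne⟩ := hn (n + x + 1)
    obtain ⟨l, b, hlb⟩ := hcase (n + k)
    obtain ⟨y, hy, hyC⟩ := h1 (max l (k + k + n + x + 1)) (max b (x + 1))
    have hyA := hlb y ((le_max_left _ _).trans hy)
      (fun i hi => hyC i (lt_of_lt_of_le hi (le_max_left _ _)))
    have hyx : x + 1 ≤ y := (le_max_right _ _).trans hy
    have hyC' : ∀ i, i ≤ k + k + n + x → (y + i ∈ C ↔ i ∈ A) := fun i hi =>
      hyC i (lt_of_lt_of_le (lt1_of_le hi) (le_max_right _ _))
    have hkey : (n + (n + (k + k) + y) ∈ A ↔ n ∈ A) := by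
      have e : n + (n + (k + k) + y) = y + (n + k + (n + k)) := by ring
      rw [e]
      have e2 : k + n = n + k := add_comm _ _
      rw [e2] at hne
      by_cases h3 : y + (n + k + (n + k)) ∈ A <;> by_cases h4 : n + k ∈ A <;>
        by_cases h5 : n ∈ A <;> simp [h3, h4, h5] at hyA hne ⊢
    refine ⟨n + (k + k) + y, ?_, hkey, ?_, ?_⟩
    · have := lt1 x
      have := zero_le' (n + (k + k))
      grind
    · have e : n + (k + k) + y = y + (k + k + n) := by ring
      rw [e, hyC' _ (le_add_of_nonneg_right (zero_le' x)), hk n (lt1_of_le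
        (le_add_of_nonneg_right (zero_le' x)))]
    · intro z hz hzP
      have e : z + (n + (k + k) + y) = y + (k + k + (n + z)) := by ring
      rw [e, hyC' _ (by rw [← add_assoc]; gcongr), hk (n + z) (lt1_of_le (by gcongr))]
      exact hzP

end Pool.Agent.H675R2.HT
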