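import Mathlib
import Pool.Agent.H675R2.HT.Lang
import Pool.Agent.H675R2.HT.Lem2

namespace Pool.Agent.H675R2.HT

open Pool.Agent.Helper617.RM

universe u

set_option linter.unusedSectionVars false
set_option linter.unusedVariables false

variable {N : L2Structure.{u}} [IsModelRCA0 N] [Sig1 N]

/-- two-sided extension of good words, arbitrarily far -/
theorem MinLang.ext {C G : Set N.M} (h : MinLang C G) {t l : N.M} (hG : pr t l ∈ G)
    (R b : N.M) : ∃ q, b ≤ q ∧ EqW C (q + R) t l ∧ pr q (R + l + R) ∈ G := by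
  obtain ⟨g, hg⟩ := h.recur t l hG
  obtain ⟨s, hs, hsG⟩ := h.far (R + (g + R)) b
  have h1 : pr (s + R) g ∈ G := h.sub s (R + (g + R)) R (s + R) g hsG
    (by
      have := zero_le' R
      grind) (EqW.refl _ _ _)
  obtain ⟨r, hr, hE⟩ := hg (s + R) g h1 le_rfl
  refine ⟨s + r, hs.trans (le_add_of_nonneg_right (zero_le' r)), ?_, ?_⟩
  · have e : s + r + R = s + R + r := by ring
    rw [e]; exact hE
  · exact h.sub s (R + (g + R)) r (s + r) (R + l + R) hsG (by grind) (EqW.refl _ _ _)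

/-- the midpoint property of a language -/
def Mid (C G : Set N.M) : Prop :=
  ∀ t0 l0, pr t0 l0 ∈ G → ∃ t1 l1, pr t1 l1 ∈ G ∧ l0 ≤ l1 ∧ EqW C t1 t0 l0 ∧
    ∀ t l k, pr t l ∈ G → 0 < k → k + k + l1 ≤ l → EqW C t t1 l1 → EqW C (t + (k + k)) t1 l1 →
      EqW C (t + k) t0 l0

theorem solved_of_not_mid {C G : Set N.M} (hC : C ∈ N.Sets) (h : MinLang C G)
    (hm : ¬ Mid C G) : Solved C := by
  have hG := h.mem
  unfold Mid at hm
  push Not at hm
  obtain ⟨t0, l0, h0, hm⟩ := hm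
  obtain ⟨f, hf, hf0, hfI, hfS⟩ := dc
    (Inv := fun e => ∃ t1 l1, e = pr t1 l1 ∧ (e ∈ G ∧ (l0 ≤ l1 ∧ EqW C t1 t0 l0)))
    (St := fun e e' => ∃ t1 l1, e = pr t1 l1 ∧ ∃ t l, e' = pr t l ∧ ∃ k, 0 < k ∧
      (k + k + l1 ≤ l ∧ (EqW C t t1 l1 ∧ (EqW C (t + (k + k)) t1 l1 ∧ ¬ EqW C (t + k) t0 l0))))
    (by unfold EqW; (repeat' (first | exact Tm.zero | exact Tm.one | exact Tm.var _ | assumption | refine Tm.add ?_ ?_ | refine Tm.mul ?_ ?_ | refine Tm.pr ?_ ?_ | exact Tm.const _ | refine MemC_D0 ?_ ?_ | refine IsC_D0 ?_ | refine D0.and ?_ ?_ | refine D0.or ?_ ?_ | refine D0.ex ?_ | refine D0.all ?_ | refine D0.iff ?_ ?_ | refine D0.imp ?_ ?_ | refine D0.not ?_ | refine D0.lt ?_ ?_ | refine D0.le ?_ ?_ | refine D0.eq ?_ ?_ | refine D0.mem ?_ ?_ | exact D0.true | exact D0.false | exact D0.const _))) (by unfold EqW; (repeat' (first | exact Tm.zero | exact Tm.one | exact Tm.var _ | assumption | refine Tm.add ?_ ?_ | refine Tm.mul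 ?_ ?_ | refine Tm.pr ?_ ?_ | exact Tm.const _ | refine MemC_D0 ?_ ?_ | refine IsC_D0 ?_ | refine D0.and ?_ ?_ | refine D0.or ?_ ?_ | refine D0.ex ?_ | refine D0.all ?_ | refine D0.iff ?_ ?_ | refine D0.imp ?_ ?_ | refine D0.not ?_ | refine D0.lt ?_ ?_ | refine D0.le ?_ ?_ | refine D0.eq ?_ ?_ | refine D0.mem ?_ ?_ | exact D0.true | exact D0.false | exact D0.const _)))
    (fun e ⟨t1, l1, he, h1, h2, h3⟩ => by
      subst he
      obtain ⟨t, l, k, h4, h5, h6, h7, h8, h9⟩ := hm t1 l1 h1 h2 h3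
      refine ⟨pr t l, ⟨t1, l1, rfl, t, l, rfl, k, h5, h6, h7, h8, h9⟩, t, l, rfl, h4, ?_,
        (h7.mono h2).trans h3⟩
      exact h2.trans ((le_add_of_nonneg_left (zero_le' (k + k))).trans h6))
    (a := pr t0 l0) ⟨t0, l0, rfl, h0, le_rfl, EqW.refl _ _ _⟩
  choose T L hTL hTLG hTL0 hTLE using hfI
  have hTD : D0 (fun v => v 1 = T (v 0)) := by
    refine (D0.ex (P := fun v e => e = f (v 0) ∧ ∃ l, e = pr (v 1) l)
      (D0.and (fun_D0 hf (Tm.var 1) (Tm.var 0)) (by (repeat' (first | exact Tm.zero | exact Tm.one | exact Tm.var _ | assumption | refine Tm.add ?_ ?_ | refine Tm.mul ?_ ?_ | refine Tm.pr ?_ ?_ | exact Tm.const _ | refine MemC_D0 ?_ ?_ | refine IsC_D0 ?_ | refine D0.and ?_ ?_ | refine D0.or ?_ ?_ | refine D0.ex ?_ | refine D0.all ?_ | refine D0.iff ?_ ?_ | refine D0.imp ?_ ?_ | refine D0.not ?_ | refine D0.lt ?_ ?_ | refine D0.le ?_ ?_ | refine D0.eq ?_ ?_ | refine D0.mem ?_ ?_ | exact D0.true | exact D0.false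 | exact D0.const _))))).congr fun v => ?_
    constructor
    · rintro ⟨e, he, l, h⟩
      rw [he, hTL] at h
      exact (pr_inj h).1.symm
    · intro h
      exact ⟨f (v 0), rfl, L (v 0), by rw [h, hTL]⟩
  have hLD : D0 (fun v => v 1 = L (v 0)) := by
    refine (D0.ex (P := fun v e => e = f (v 0) ∧ ∃ t, e = pr t (v 1))
      (D0.and (fun_D0 hf (Tm.var 1) (Tm.var 0)) (by (repeat' (first | exact Tm.zero | exact Tm.one | exact Tm.var _ | assumption | refine Tm.add ?_ ?_ | refine Tm.mul ?_ ?_ | refine Tm.pr ?_ ?_ | exact Tm.const _ | refine MemC_D0 ?_ ?_ | refine IsC_D0 ?_ | refine D0.and ?_ ?_ | refine D0.or ?_ ?_ | refine D0.ex ?_ | refine D0.all ?_ | refine D0.iff ?_ ?_ | refine D0.imp ?_ ?_ | refine D0.not ?_ | refine D0.lt ?_ ?_ | refine D0.le ?_ ?_ | refine D0.eq ?_ ?_ | refine D0.mem ?_ ?_ | exact D0.true | exact D0.false | exact D0.const _))))).congr fun v => ?_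
    constructor
    · rintro ⟨e, he, l, h⟩
      rw [he, hTL] at h
      exact (pr_inj h).2.symm
    · intro h
      exact ⟨f (v 0), rfl, T (v 0), by rw [h, hTL]⟩
  have hstep : ∀ n, ∃ k, 0 < k ∧ (k + k + L n ≤ L (n + 1) ∧ (EqW C (T (n + 1)) (T n) (L n) ∧
      (EqW C (T (n + 1) + (k + k)) (T n) (L n) ∧ ¬ EqW C (T (n + 1) + k) t0 l0))) := by
    intro n
    obtain ⟨t1, l1, h1, t, l, h2, h3⟩ := hfS n
    rw [hTL] at h1 h2
    obtain ⟨rfl, rfl⟩ := pr_inj h1
    obtain ⟨rfl, rfl⟩ := pr_inj h2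
    exact h3
  have hLlt : ∀ n, L n < L (n + 1) := by
    intro n
    obtain ⟨k, h1, h2, _⟩ := hstep n
    refine lt_of_lt_of_le ?_ h2
    have := zero_le' k
    grind
  have hLle := le_of_step hLD hLlt
  have hLmono := mono_of_step hLD hLlt
  -- coherence
  have hcoh : ∀ d n, EqW C (T (n + d)) (T n) (L n) := by
    intro d n
    have key : ∀ a, a = T (n + d) → EqW C a (T n) (L n) := by
      refine ind (P := fun d => ∀ a, a = T (n + d) → EqW C a (T n) (L n)) ?_ ?_ ?_ d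
      · exact D0.all (D0.imp (fun_D0 hTD ((Tm.const n).add (Tm.var 1)) (Tm.var 0))
          (by unfold EqW; (repeat' (first | exact Tm.zero | exact Tm.one | exact Tm.var _ | assumption | refine Tm.add ?_ ?_ | refine Tm.mul ?_ ?_ | refine Tm.pr ?_ ?_ | exact Tm.const _ | refine MemC_D0 ?_ ?_ | refine IsC_D0 ?_ | refine D0.and ?_ ?_ | refine D0.or ?_ ?_ | refine D0.ex ?_ | refine D0.all ?_ | refine D0.iff ?_ ?_ | refine D0.imp ?_ ?_ | refine D0.not ?_ | refine D0.lt ?_ ?_ | refine D0.le ?_ ?_ | refine D0.eq ?_ ?_ | refine D0.mem ?_ ?_ | exact D0.true | exact D0.false | exact D0.const _))))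
      · rintro a rfl; rw [add_zero]; exact EqW.refl _ _ _
      · rintro d ih a rfl
        rw [← add_assoc]
        obtain ⟨k, _, _, h3, _⟩ := hstep (n + d)
        refine (h3.mono ?_).trans (ih _ rfl)
        rcases eq_zero_or_succ d with rfl | ⟨d', rfl⟩
        · rw [add_zero]
        · exact (hLmono _ _ (by
            have := zero_le' d'
            have := lt1 n
            grind)).le
    exact key _ rfl
  have hA : {i | ∃ n, ∃ t, t = T n ∧ ∃ l, l = L n ∧ (i < l ∧ t + i ∈ C)} ∈ N.Sets :=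
    comp_D0 (P := fun i => ∃ n, ∃ t, t = T n ∧ ∃ l, l = L n ∧ (i < l ∧ t + i ∈ C))
      (D0.ex (D0.ex (D0.and (fun_D0 hTD (Tm.var 1) (Tm.var 0)) (D0.ex (D0.and
        (fun_D0 hLD (Tm.var 2) (Tm.var 0)) (by (repeat' (first | exact Tm.zero | exact Tm.one | exact Tm.var _ | assumption | refine Tm.add ?_ ?_ | refine Tm.mul ?_ ?_ | refine Tm.pr ?_ ?_ | exact Tm.const _ | refine MemC_D0 ?_ ?_ | refine IsC_D0 ?_ | refine D0.and ?_ ?_ | refine D0.or ?_ ?_ | refine D0.ex ?_ | refine D0.all ?_ | refine D0.iff ?_ ?_ | refine D0.imp ?_ ?_ | refine D0.not ?_ | refine D0.lt ?_ ?_ | refine D0.le ?_ ?_ | refine D0.eq ?_ ?_ | refine D0.mem ?_ ?_ | exact D0.true | exact D0.false | exact D0.const _))))))))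
  have hAiff : ∀ n i, i < L n →
      (i ∈ {i | ∃ n, ∃ t, t = T n ∧ ∃ l, l = L n ∧ (i < l ∧ t + i ∈ C)} ↔ T n + i ∈ C) := by
    intro n i hi
    constructor
    · rintro ⟨m, _, rfl, _, rfl, hm1, hm2⟩
      rcases le_total n m with hnm | hnm
      · obtain ⟨d, rfl⟩ := exists_sub hnm
        exact (hcoh d n i hi).1 hm2
      · obtain ⟨d, rfl⟩ := exists_sub hnm
        exact (hcoh d m i hm1).2 hm2
    · intro h
      exact ⟨n, _, rfl, _, rfl, hi, h⟩
  refine solved_of_half hC hA ?_ l0 ?_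
  · intro l b
    obtain ⟨q, hq, hE, _⟩ := h.ext (hTL l ▸ hTLG l) 0 b
    refine ⟨q, hq, fun i hi => ?_⟩
    have hiL : i < L l := lt_of_lt_of_le hi (hLle l)
    rw [hAiff l i hiL]
    have := hE i hiL
    rwa [add_zero] at this
  · intro l
    obtain ⟨k, hk0, hk1, hk2, hk3, hk4⟩ := hstep l
    refine ⟨k, fun i hi => ?_, ?_⟩
    · have hiL : i < L l := lt_of_lt_of_le hi (hLle l)
      rw [hAiff l i hiL, hAiff (l + 1) (k + k + i) (by grind)]
      have := hk3 i hiL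
      rwa [add_assoc] at this
    · unfold EqW at hk4
      push Not at hk4
      obtain ⟨i, hi, hne⟩ := hk4
      refine ⟨i, hi, ?_⟩
      have hiL : i < L l := lt_of_lt_of_le hi (hTL0 l)
      have hki : k + i < L (l + 1) := by
        have := zero_le' k
        grind
      rw [hAiff l i hiL, hAiff (l + 1) (k + i) hki, hTLE l i hi, ← add_assoc]
      tauto

end Pool.Agent.H675R2.HT
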