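import Mathlib
import Pool.Agent.H675R2.HT.Fail

namespace Pool.Agent.H675R2.HT

open Pool.Agent.Helper617.RM

universe u

set_option linter.unusedSectionVars false
set_option linter.unusedVariables false

variable {N : L2Structure.{u}} [IsModelRCA0 N] [Sig1 N]

/-- a two-sided point of the minimal system: good words `[Q n, Q n + 2 n)`, each one being the
central part of the next one -/
theorem exists_point {C G : Set N.M} (hC : C ∈ N.Sets) (h : MinLang C G) :
    ∃ Q : N.M → N.M, D0 (fun v => v 1 = Q (v 0)) ∧ (∀ n, pr (Q n) (n + n) ∈ G) ∧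
      ∀ n d, EqW C (Q (n + d) + d) (Q n) (n + n) := by
  have hG := h.mem
  obtain ⟨q0, _, hq0⟩ := h.far 0 0
  obtain ⟨f, hf, hf0, hfI, hfS⟩ := dc
    (Inv := fun e => ∃ q R, e = pr q R ∧ pr q (R + R) ∈ G)
    (St := fun e e' => ∃ q R, e = pr q R ∧ ∃ q', e' = pr q' (R + 1) ∧ EqW C (q' + 1) q (R + R))
    (by (repeat' (first | exact Tm.zero | exact Tm.one | exact Tm.var _ | assumption | refine Tm.add ?_ ?_ | refine Tm.mul ?_ ?_ | refine Tm.pr ?_ ?_ | exact Tm.const _ | refine MemC_D0 ?_ ?_ | refine IsC_D0 ?_ | refine D0.and ?_ ?_ | refine D0.or ?_ ?_ | refine D0.ex ?_ | refine D0.all ?_ | refine D0.iff ?_ ?_ | refine D0.imp ?_ ?_ | refine D0.not ?_ | refine D0.lt ?_ ?_ | refine D0.le ?_ ?_ | refine D0.eq ?_ ?_ | refine D0.mem ?_ ?_ | exact D0.true | exact D0.false | exact D0.const _))) (by unfold EqW; (repeat' (first | exact Tm.zero | exact Tm.one | exact Tm.var _ | assumption | refine Tm.add ?_ ?_ | refine Tm.mul ?_ ?_ | refine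 Tm.pr ?_ ?_ | exact Tm.const _ | refine MemC_D0 ?_ ?_ | refine IsC_D0 ?_ | refine D0.and ?_ ?_ | refine D0.or ?_ ?_ | refine D0.ex ?_ | refine D0.all ?_ | refine D0.iff ?_ ?_ | refine D0.imp ?_ ?_ | refine D0.not ?_ | refine D0.lt ?_ ?_ | refine D0.le ?_ ?_ | refine D0.eq ?_ ?_ | refine D0.mem ?_ ?_ | exact D0.true | exact D0.false | exact D0.const _)))
    (fun e ⟨q, R, he, h1⟩ => by
      obtain ⟨q', _, h2, h3⟩ := h.ext h1 1 0
      refine ⟨pr q' (R + 1), ⟨q, R, he, q', rfl, h2⟩, q', R + 1, rfl, ?_⟩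
      have e : R + 1 + (R + 1) = 1 + (R + R) + 1 := by ring
      rw [e]; exact h3)
    (a := pr q0 0) ⟨q0, 0, rfl, by rw [add_zero]; exact hq0⟩
  have hshape : ∀ n, ∃ q, f n = pr q n := by
    intro n
    have key : ∀ a, a = f n → ∃ q, a = pr q n := by
      refine ind (P := fun n => ∀ a, a = f n → ∃ q, a = pr q n) ?_ ?_ ?_ n
      · exact D0.all (D0.imp (fun_D0 hf (Tm.var 1) (Tm.var 0)) (by (repeat' (first | exact Tm.zero | exact Tm.one | exact Tm.var _ | assumption | refine Tm.add ?_ ?_ | refine Tm.mul ?_ ?_ | refine Tm.pr ?_ ?_ | exact Tm.const _ | refine MemC_D0 ?_ ?_ | refine IsC_D0 ?_ | refine D0.and ?_ ?_ | refine D0.or ?_ ?_ | refine D0.ex ?_ | refine D0.all ?_ | refine D0.iff ?_ ?_ | refine D0.imp ?_ ?_ | refine D0.not ?_ | refine D0.lt ?_ ?_ | refine D0.le ?_ ?_ | refine D0.eq ?_ ?_ | refine D0.mem ?_ ?_ | exact D0.true | exact D0.false | exact D0.const _))))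
      · rintro a rfl; exact ⟨q0, hf0⟩
      · rintro n ih a rfl
        obtain ⟨q, hq⟩ := ih _ rfl
        obtain ⟨q1, R, h1, q', h2, _⟩ := hfS n
        rw [hq] at h1
        rw [h2, ← (pr_inj h1).2]
        exact ⟨q', rfl⟩
    exact key _ rfl
  choose Q hQ using hshape
  have hQD : D0 (fun v => v 1 = Q (v 0)) := by
    refine (D0.ex (P := fun v e => e = f (v 0) ∧ e = pr (v 1) (v 0))
      (D0.and (fun_D0 hf (Tm.var 1) (Tm.var 0)) (by (repeat' (first | exact Tm.zero | exact Tm.one | exact Tm.var _ | assumption | refine Tm.add ?_ ?_ | refine Tm.mul ?_ ?_ | refine Tm.pr ?_ ?_ | exact Tm.const _ | refine MemC_D0 ?_ ?_ | refine IsC_D0 ?_ | refine D0.and ?_ ?_ | refine D0.or ?_ ?_ | refine D0.ex ?_ | refine D0.all ?_ | refine D0.iff ?_ ?_ | refine D0.imp ?_ ?_ | refine D0.not ?_ | refine D0.lt ?_ ?_ | refine D0.le ?_ ?_ | refine D0.eq ?_ ?_ | refine D0.mem ?_ ?_ | exact D0.true | exact D0.false | exact D0.const _))))).congr fun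 v => ?_
    constructor
    · rintro ⟨e, he, h⟩
      rw [he, hQ] at h
      exact (pr_inj h).1.symm
    · intro h
      exact ⟨f (v 0), rfl, by rw [h, hQ]⟩
  refine ⟨Q, hQD, ?_, ?_⟩
  · intro n
    obtain ⟨q, R, h1, h2⟩ := hfI n
    rw [hQ] at h1
    obtain ⟨rfl, rfl⟩ := pr_inj h1
    exact h2
  · intro n d
    have hstep : ∀ n, EqW C (Q (n + 1) + 1) (Q n) (n + n) := by
      intro n
      obtain ⟨q, R, h1, q', h2, h3⟩ := hfS n
      rw [hQ] at h1 h2
      obtain ⟨rfl, rfl⟩ := pr_inj h1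
      obtain ⟨rfl, _⟩ := pr_inj h2
      exact h3
    have key : ∀ a, a = Q (n + d) → EqW C (a + d) (Q n) (n + n) := by
      refine ind (P := fun d => ∀ a, a = Q (n + d) → EqW C (a + d) (Q n) (n + n)) ?_ ?_ ?_ d
      · exact D0.all (D0.imp (fun_D0 hQD ((Tm.const n).add (Tm.var 1)) (Tm.var 0))
          (by unfold EqW; (repeat' (first | exact Tm.zero | exact Tm.one | exact Tm.var _ | assumption | refine Tm.add ?_ ?_ | refine Tm.mul ?_ ?_ | refine Tm.pr ?_ ?_ | exact Tm.const _ | refine MemC_D0 ?_ ?_ | refine IsC_D0 ?_ | refine D0.and ?_ ?_ | refine D0.or ?_ ?_ | refine D0.ex ?_ | refine D0.all ?_ | refine D0.iff ?_ ?_ | refine D0.imp ?_ ?_ | refine D0.not ?_ | refine D0.lt ?_ ?_ | refine D0.le ?_ ?_ | refine D0.eq ?_ ?_ | refine D0.mem ?_ ?_ | exact D0.true | exact D0.false | exact D0.const _))))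
      · rintro a rfl; rw [add_zero, add_zero]; exact EqW.refl _ _ _
      · rintro d ih a rfl
        have h1 := (hstep (n + d)).sub (r := d) (l' := n + n) (by
          have := zero_le' d
          grind)
        have e : Q (n + (d + 1)) + (d + 1) = Q (n + d + 1) + 1 + d := by
          rw [← add_assoc n d 1]; ring
        rw [e]
        exact h1.trans (ih _ rfl)
    exact key _ rfl

/-- every sequence of sets has a convergent subsequence -/
theorem exists_conv {B : N.M → N.M → Prop} (hB : D0 (fun v => B (v 0) (v 1))) :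
    ∃ (J : N.M → N.M) (A : Set N.M), D0 (fun v => v 1 = J (v 0)) ∧ A ∈ N.Sets ∧
      (∀ n, n ≤ J n) ∧ ∀ n i, i < n → (B (J n) i ↔ i ∈ A) := by
  have hB' : ∀ {s t : Ctx N → N.M}, Tm s → Tm t → D0 (fun v => B (s v) (t v)) :=
    fun hs ht => hB.rel hs ht
  obtain ⟨f, hf, hf0, hfI, hfS⟩ := dc
    (Inv := fun e => ∃ j l, e = pr j l ∧ ∀ b, ∃ j', b ≤ j' ∧ ∀ i, i < l → (B j' i ↔ B j i))
    (St := fun e e' => ∃ j l, e = pr j l ∧ ∃ j', e' = pr j' (l + 1) ∧ (j < j' ∧
      ∀ i, i < l → (B j' i ↔ B j i)))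
    (by
      refine D0.ex (D0.ex (D0.and (by (repeat' (first | exact Tm.zero | exact Tm.one | exact Tm.var _ | assumption | refine Tm.add ?_ ?_ | refine Tm.mul ?_ ?_ | refine Tm.pr ?_ ?_ | exact Tm.const _ | refine MemC_D0 ?_ ?_ | refine IsC_D0 ?_ | refine D0.and ?_ ?_ | refine D0.or ?_ ?_ | refine D0.ex ?_ | refine D0.all ?_ | refine D0.iff ?_ ?_ | refine D0.imp ?_ ?_ | refine D0.not ?_ | refine D0.lt ?_ ?_ | refine D0.le ?_ ?_ | refine D0.eq ?_ ?_ | refine D0.mem ?_ ?_ | exact D0.true | exact D0.false | exact D0.const _))) (D0.all (D0.ex (D0.and (by (repeat' (first | exact Tm.zero | exact Tm.one | exact Tm.var _ | assumption | refine Tm.add ?_ ?_ | refine Tm.mul ?_ ?_ | refine Tm.pr ?_ ?_ | exact Tm.const _ | refine MemC_D0 ?_ ?_ | refine IsC_D0 ?_ | refine D0.and ?_ ?_ | refine D0.or ?_ ?_ | refine D0.ex ?_ | refine D0.all ?_ | refine D0.iff ?_ ?_ | refine D0.imp ?_ ?_ | refine D0.not ?_ | refine D0.lt ?_ ?_ | refine D0.le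 ?_ ?_ | refine D0.eq ?_ ?_ | refine D0.mem ?_ ?_ | exact D0.true | exact D0.false | exact D0.const _))) (D0.all (D0.imp (by (repeat' (first | exact Tm.zero | exact Tm.one | exact Tm.var _ | assumption | refine Tm.add ?_ ?_ | refine Tm.mul ?_ ?_ | refine Tm.pr ?_ ?_ | exact Tm.const _ | refine MemC_D0 ?_ ?_ | refine IsC_D0 ?_ | refine D0.and ?_ ?_ | refine D0.or ?_ ?_ | refine D0.ex ?_ | refine D0.all ?_ | refine D0.iff ?_ ?_ | refine D0.imp ?_ ?_ | refine D0.not ?_ | refine D0.lt ?_ ?_ | refine D0.le ?_ ?_ | refine D0.eq ?_ ?_ | refine D0.mem ?_ ?_ | exact D0.true | exact D0.false | exact D0.const _)))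
        (D0.iff (hB' (Tm.var 1) (Tm.var 0)) (hB' (Tm.var 4) (Tm.var 0)))))))))) )
    (by
      refine D0.ex (D0.ex (D0.and (by (repeat' (first | exact Tm.zero | exact Tm.one | exact Tm.var _ | assumption | refine Tm.add ?_ ?_ | refine Tm.mul ?_ ?_ | refine Tm.pr ?_ ?_ | exact Tm.const _ | refine MemC_D0 ?_ ?_ | refine IsC_D0 ?_ | refine D0.and ?_ ?_ | refine D0.or ?_ ?_ | refine D0.ex ?_ | refine D0.all ?_ | refine D0.iff ?_ ?_ | refine D0.imp ?_ ?_ | refine D0.not ?_ | refine D0.lt ?_ ?_ | refine D0.le ?_ ?_ | refine D0.eq ?_ ?_ | refine D0.mem ?_ ?_ | exact D0.true | exact D0.false | exact D0.const _))) (D0.ex (D0.and (by (repeat' (first | exact Tm.zero | exact Tm.one | exact Tm.var _ | assumption | refine Tm.add ?_ ?_ | refine Tm.mul ?_ ?_ | refine Tm.pr ?_ ?_ | exact Tm.const _ | refine MemC_D0 ?_ ?_ | refine IsC_D0 ?_ | refine D0.and ?_ ?_ | refine D0.or ?_ ?_ | refine D0.ex ?_ | refine D0.all ?_ | refine D0.iff ?_ ?_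 | refine D0.imp ?_ ?_ | refine D0.not ?_ | refine D0.lt ?_ ?_ | refine D0.le ?_ ?_ | refine D0.eq ?_ ?_ | refine D0.mem ?_ ?_ | exact D0.true | exact D0.false | exact D0.const _))) (D0.and (by (repeat' (first | exact Tm.zero | exact Tm.one | exact Tm.var _ | assumption | refine Tm.add ?_ ?_ | refine Tm.mul ?_ ?_ | refine Tm.pr ?_ ?_ | exact Tm.const _ | refine MemC_D0 ?_ ?_ | refine IsC_D0 ?_ | refine D0.and ?_ ?_ | refine D0.or ?_ ?_ | refine D0.ex ?_ | refine D0.all ?_ | refine D0.iff ?_ ?_ | refine D0.imp ?_ ?_ | refine D0.not ?_ | refine D0.lt ?_ ?_ | refine D0.le ?_ ?_ | refine D0.eq ?_ ?_ | refine D0.mem ?_ ?_ | exact D0.true | exact D0.false | exact D0.const _))) (D0.all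
        (D0.imp (by (repeat' (first | exact Tm.zero | exact Tm.one | exact Tm.var _ | assumption | refine Tm.add ?_ ?_ | refine Tm.mul ?_ ?_ | refine Tm.pr ?_ ?_ | exact Tm.const _ | refine MemC_D0 ?_ ?_ | refine IsC_D0 ?_ | refine D0.and ?_ ?_ | refine D0.or ?_ ?_ | refine D0.ex ?_ | refine D0.all ?_ | refine D0.iff ?_ ?_ | refine D0.imp ?_ ?_ | refine D0.not ?_ | refine D0.lt ?_ ?_ | refine D0.le ?_ ?_ | refine D0.eq ?_ ?_ | refine D0.mem ?_ ?_ | exact D0.true | exact D0.false | exact D0.const _)))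
        (D0.iff (hB' (Tm.var 1) (Tm.var 0)) (hB' (Tm.var 3) (Tm.var 0)))))))))) )
    (fun e ⟨j, l, he, h1⟩ => by
      have hbit : ∃ β : Prop, ∀ b, ∃ j', b ≤ j' ∧ (∀ i, i < l → (B j' i ↔ B j i)) ∧
          (B j' l ↔ β) := by
        by_contra hcon
        push Not at hcon
        obtain ⟨b1, hb1⟩ := hcon True
        obtain ⟨b2, hb2⟩ := hcon False
        obtain ⟨j', hj', hj''⟩ := h1 (max b1 b2)
        have h3 := hb1 j' ((le_max_left _ _).trans hj') hj''
        have h4 := hb2 j' ((le_max_right _ _).trans hj') hj''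
        by_cases h5 : B j' l <;> simp [h5] at h3 h4
      obtain ⟨β, hβ⟩ := hbit
      obtain ⟨j', hj', hj1, hj2⟩ := hβ (j + 1)
      refine ⟨pr j' (l + 1), ⟨j, l, he, j', rfl, lt_of_lt_of_le (lt1 j) hj', hj1⟩, j', l + 1,
        rfl, fun b => ?_⟩
      obtain ⟨j'', h6, h7, h8⟩ := hβ b
      refine ⟨j'', h6, fun i hi => ?_⟩
      rcases lt_or_eq_of_le (le_of_lt1 hi) with h | rfl
      · exact (h7 i h).trans (hj1 i h).symm
      · exact h8.trans hj2.symm)
    (a := pr 0 0) ⟨0, 0, rfl, fun b => ⟨b, le_rfl, fun i hi => absurd hi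
      (not_lt_of_ge (zero_le' i))⟩⟩
  have hshape : ∀ n, ∃ q, f n = pr q n := by
    intro n
    have key : ∀ a, a = f n → ∃ q, a = pr q n := by
      refine ind (P := fun n => ∀ a, a = f n → ∃ q, a = pr q n) ?_ ?_ ?_ n
      · exact D0.all (D0.imp (fun_D0 hf (Tm.var 1) (Tm.var 0)) (by (repeat' (first | exact Tm.zero | exact Tm.one | exact Tm.var _ | assumption | refine Tm.add ?_ ?_ | refine Tm.mul ?_ ?_ | refine Tm.pr ?_ ?_ | exact Tm.const _ | refine MemC_D0 ?_ ?_ | refine IsC_D0 ?_ | refine D0.and ?_ ?_ | refine D0.or ?_ ?_ | refine D0.ex ?_ | refine D0.all ?_ | refine D0.iff ?_ ?_ | refine D0.imp ?_ ?_ | refine D0.not ?_ | refine D0.lt ?_ ?_ | refine D0.le ?_ ?_ | refine D0.eq ?_ ?_ | refine D0.mem ?_ ?_ | exact D0.true | exact D0.false | exact D0.const _))))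
      · rintro a rfl; exact ⟨0, hf0⟩
      · rintro n ih a rfl
        obtain ⟨q, hq⟩ := ih _ rfl
        obtain ⟨q1, R, h1, q', h2, _⟩ := hfS n
        rw [hq] at h1
        rw [h2, ← (pr_inj h1).2]
        exact ⟨q', rfl⟩
    exact key _ rfl
  choose J hJ using hshape
  have hJD : D0 (fun v => v 1 = J (v 0)) := by
    refine (D0.ex (P := fun v e => e = f (v 0) ∧ e = pr (v 1) (v 0))
      (D0.and (fun_D0 hf (Tm.var 1) (Tm.var 0)) (by (repeat' (first | exact Tm.zero | exact Tm.one | exact Tm.var _ | assumption | refine Tm.add ?_ ?_ | refine Tm.mul ?_ ?_ | refine Tm.pr ?_ ?_ | exact Tm.const _ | refine MemC_D0 ?_ ?_ | refine IsC_D0 ?_ | refine D0.and ?_ ?_ | refine D0.or ?_ ?_ | refine D0.ex ?_ | refine D0.all ?_ | refine D0.iff ?_ ?_ | refine D0.imp ?_ ?_ | refine D0.not ?_ | refine D0.lt ?_ ?_ | refine D0.le ?_ ?_ | refine D0.eq ?_ ?_ | refine D0.mem ?_ ?_ | exact D0.true | exact D0.false | exact D0.const _))))).congr fun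 v => ?_
    constructor
    · rintro ⟨e, he, h⟩
      rw [he, hJ] at h
      exact (pr_inj h).1.symm
    · intro h
      exact ⟨f (v 0), rfl, by rw [h, hJ]⟩
  have hstep : ∀ n, J n < J (n + 1) ∧ ∀ i, i < n → (B (J (n + 1)) i ↔ B (J n) i) := by
    intro n
    obtain ⟨j, l, h1, j', h2, h3⟩ := hfS n
    rw [hJ] at h1 h2
    obtain ⟨rfl, rfl⟩ := pr_inj h1
    obtain ⟨rfl, _⟩ := pr_inj h2
    exact h3
  have hcoh : ∀ n d i, i < n → (B (J (n + d)) i ↔ B (J n) i) := by
    intro n d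
    have key : ∀ a b, a = J (n + d) → b = J n → ∀ i, i < n → (B a i ↔ B b i) := by
      refine ind (P := fun d => ∀ a b, a = J (n + d) → b = J n → ∀ i, i < n → (B a i ↔ B b i))
        ?_ ?_ ?_ d
      · refine D0.all (D0.all (D0.imp (fun_D0 hJD ((Tm.const n).add (Tm.var 2)) (Tm.var 1))
          (D0.imp (fun_D0 hJD (Tm.const n) (Tm.var 0)) (D0.all (D0.imp (by (repeat' (first | exact Tm.zero | exact Tm.one | exact Tm.var _ | assumption | refine Tm.add ?_ ?_ | refine Tm.mul ?_ ?_ | refine Tm.pr ?_ ?_ | exact Tm.const _ | refine MemC_D0 ?_ ?_ | refine IsC_D0 ?_ | refine D0.and ?_ ?_ | refine D0.or ?_ ?_ | refine D0.ex ?_ | refine D0.all ?_ | refine D0.iff ?_ ?_ | refine D0.imp ?_ ?_ | refine D0.not ?_ | refine D0.lt ?_ ?_ | refine D0.le ?_ ?_ | refine D0.eq ?_ ?_ | refine D0.mem ?_ ?_ | exact D0.true | exact D0.false | exact D0.const _)))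
          (D0.iff (hB' (Tm.var 2) (Tm.var 0)) (hB' (Tm.var 1) (Tm.var 0))))))))
      · rintro a b rfl rfl i hi; rw [add_zero]
      · rintro d ih a b rfl rfl i hi
        rw [← add_assoc]
        exact ((hstep (n + d)).2 i (lt_of_lt_of_le hi (le_add_of_nonneg_right (zero_le' d)))).trans
          (ih _ _ rfl rfl i hi)
    exact key _ _ rfl rfl
  refine ⟨J, {i | ∃ j, j = J (i + 1) ∧ B j i}, hJD, comp_D0
    (P := fun i => ∃ j, j = J (i + 1) ∧ B j i)
    (D0.ex (D0.and (fun_D0 hJD ((Tm.var 1).add Tm.one) (Tm.var 0)) (hB' (Tm.var 0) (Tm.var 1)))),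
    le_of_step hJD (fun n => (hstep n).1), ?_⟩
  intro n i hi
  obtain ⟨d, rfl⟩ := exists_sub (succ_le' hi)
  rw [hcoh (i + 1) d i (lt1 i)]
  constructor
  · intro h; exact ⟨_, rfl, h⟩
  · rintro ⟨_, rfl, h⟩; exact h

/-- parity -/
theorem parity (x : N.M) : ∃ h, x = h + h ∨ x = h + h + 1 := by
  refine ind (P := fun x => ∃ h, x = h + h ∨ x = h + h + 1) (by (repeat' (first | exact Tm.zero | exact Tm.one | exact Tm.var _ | assumption | refine Tm.add ?_ ?_ | refine Tm.mul ?_ ?_ | refine Tm.pr ?_ ?_ | exact Tm.const _ | refine MemC_D0 ?_ ?_ | refine IsC_D0 ?_ | refine D0.and ?_ ?_ | refine D0.or ?_ ?_ | refine D0.ex ?_ | refine D0.all ?_ | refine D0.iff ?_ ?_ | refine D0.imp ?_ ?_ | refine D0.not ?_ | refine D0.lt ?_ ?_ | refine D0.le ?_ ?_ | refine D0.eq ?_ ?_ | refine D0.mem ?_ ?_ | exact D0.true | exact D0.false | exact D0.const _))) ?_ ?_ x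
  · exact ⟨0, Or.inl (by ring)⟩
  · rintro x ⟨h, rfl | rfl⟩
    · exact ⟨h, Or.inr rfl⟩
    · exact ⟨h + 1, Or.inl (by ring)⟩

theorem parity_ne {x y : N.M} : x + x ≠ y + y + 1 := by
  intro h
  rcases le_or_gt x y with h1 | h1
  · have h2 := lt1 (y + y)
    grind
  · have h2 := succ_le' h1
    have h3 := lt1 (y + y + 1)
    grind

end Pool.Agent.H675R2.HT
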