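import Mathlib
import Pool.Agent.H675R2.HT.Point

namespace Pool.Agent.H675R2.HT

open Pool.Agent.Helper617.RM

universe u

set_option linter.unusedSectionVars false
set_option linter.unusedVariables false

variable {N : L2Structure.{u}} [IsModelRCA0 N] [Sig1 N]

/-- a good word occurs near any two places of a good interval, with offsets of the same parity
if the two places have the same parity -/
theorem two_occ {C G : Set N.M} (hG : MinLang C G) {t1 l1 : N.M} (h1 : pr t1 l1 ∈ G) :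
    ∃ g, ∀ t l, pr t l ∈ G → ∀ p q e, p + q = e + e → p + g ≤ l → q + g ≤ l →
      ∃ f f' h, f + l1 ≤ g ∧ f' + l1 ≤ g ∧ EqW C (t + p + f) t1 l1 ∧ EqW C (t + q + f') t1 l1 ∧
        f + f' = h + h := by
  have hsubw : ∀ {t l}, pr t l ∈ G → ∀ {p g}, p + g ≤ l → pr (t + p) g ∈ G :=
    fun {t l} ht {p g} hp => hG.sub t l p (t + p) g ht hp (EqW.refl _ _ _)
  by_cases hodd : ∃ t2 l2 r r' h, pr t2 l2 ∈ G ∧ r + l1 ≤ l2 ∧ r' + l1 ≤ l2 ∧
      EqW C (t2 + r) t1 l1 ∧ EqW C (t2 + r') t1 l1 ∧ r + r' = h + h + 1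
  · obtain ⟨t2, l2, r, r', h, ht2, hr, hr', hE, hE', hpar⟩ := hodd
    obtain ⟨g, hg⟩ := hG.recur t2 l2 ht2
    -- even occurrence in every good interval of length `g`
    have hev : ∀ s, pr s g ∈ G → ∃ f e, f + l1 ≤ g ∧ EqW C (s + f) t1 l1 ∧ f = e + e := by
      intro s hs
      obtain ⟨ρ, hρ, hEρ⟩ := hg s g hs le_rfl
      have k1 : EqW C (s + (ρ + r)) t1 l1 := by
        rw [← add_assoc]; exact (hEρ.sub hr).trans hE
      have k2 : EqW C (s + (ρ + r')) t1 l1 := by
        rw [← add_assoc]; exact (hEρ.sub hr').trans hE'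
      have m1 : ρ + r + l1 ≤ g := by grind
      have m2 : ρ + r' + l1 ≤ g := by grind
      obtain ⟨a, ha | ha⟩ := parity (ρ + r)
      · exact ⟨ρ + r, a, m1, k1, ha⟩
      · obtain ⟨b, hb | hb⟩ := parity (ρ + r')
        · exact ⟨ρ + r', b, m2, k2, hb⟩
        · exfalso
          have e1 : (ρ + r) + (ρ + r') = (ρ + h) + (ρ + h) + 1 := by
            calc (ρ + r) + (ρ + r') = ρ + ρ + (r + r') := by ring
              _ = _ := by rw [hpar]; ring
          rw [ha, hb] at e1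
          have e2 : a + a + 1 + (b + b + 1) = (a + b + 1) + (a + b + 1) := by ring
          rw [e2] at e1
          exact parity_ne e1
    refine ⟨g, fun t l ht p q e _ hp hq => ?_⟩
    obtain ⟨f, a, h3, h4, h5⟩ := hev _ (hsubw ht hp)
    obtain ⟨f', b, h6, h7, h8⟩ := hev _ (hsubw ht hq)
    exact ⟨f, f', a + b, h3, h6, h4, h7, by rw [h5, h8]; ring⟩
  · push Not at hodd
    obtain ⟨g, hg⟩ := hG.recur t1 l1 h1
    refine ⟨g, fun t l ht p q e hpq hp hq => ?_⟩
    obtain ⟨f, h3, h4⟩ := hg _ g (hsubw ht hp) le_rfl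
    obtain ⟨f', h5, h6⟩ := hg _ g (hsubw ht hq) le_rfl
    obtain ⟨h, hh | hh⟩ := parity (f + f')
    · exact ⟨f, f', h, h3, h5, h4, h6, hh⟩
    · exfalso
      refine hodd t l (p + f) (q + f') (e + h) ht (by grind) (by grind) ?_ ?_ ?_
      · rw [← add_assoc]; exact h4
      · rw [← add_assoc]; exact h6
      · calc p + f + (q + f') = (p + q) + (f + f') := by ring
          _ = _ := by rw [hpq, hh]; ring

/-- the value at the integer `u - v` of the two-sided point given by `Q` -/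
def Val (C : Set N.M) (Q : N.M → N.M) (u v : N.M) : Prop :=
  ∃ m q, q = Q (m + v) ∧ (u < m + v ∧ q + m + u ∈ C)

theorem Val_D0 {C : Set N.M} (hC : C ∈ N.Sets) {Q : N.M → N.M}
    (hQ : D0 (fun v => v 1 = Q (v 0))) {s t : Ctx N → N.M} (hs : Tm s) (ht : Tm t) :
    D0 (fun v => Val C Q (s v) (t v)) := by
  refine D0.ex (D0.ex (D0.and (fun_D0 hQ ((Tm.var 1).add ht.tail.tail) (Tm.var 0)) (D0.and ?_ ?_)))
  · exact D0.lt hs.tail.tail ((Tm.var 1).add ht.tail.tail)
  · exact D0.mem (((Tm.var 0).add (Tm.var 1)).add hs.tail.tail) hC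

theorem Val_iff {C : Set N.M} {Q : N.M → N.M}
    (hQ : ∀ n d, EqW C (Q (n + d) + d) (Q n) (n + n)) {u v m : N.M} (h : u < m + v) :
    Val C Q u v ↔ Q (m + v) + m + u ∈ C := by
  have key : ∀ m d, u < m + v → (Q (m + d + v) + (m + d) + u ∈ C ↔ Q (m + v) + m + u ∈ C) := by
    intro m d hu
    have h1 := hQ (m + v) d (m + u) (by
      have := zero_le' v
      grind)
    have e1 : Q (m + d + v) + (m + d) + u = Q (m + v + d) + d + (m + u) := by
      have : m + d + v = m + v + d := by ring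
      rw [this]; ring
    have e2 : Q (m + v) + m + u = Q (m + v) + (m + u) := by ring
    rw [e1, e2]; exact h1
  constructor
  · rintro ⟨m', _, rfl, h1, h2⟩
    rcases le_total m m' with hm | hm
    · obtain ⟨d, rfl⟩ := exists_sub hm
      exact (key m d h).1 h2
    · obtain ⟨d, rfl⟩ := exists_sub hm
      exact (key m' d h1).2 h2
  · intro h1
    exact ⟨m, _, rfl, h, h1⟩

theorem Val_shift {C : Set N.M} {Q : N.M → N.M}
    (hQ : ∀ n d, EqW C (Q (n + d) + d) (Q n) (n + n)) (u v t : N.M) :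
    Val C Q (u + t) (v + t) ↔ Val C Q u v := by
  have hu : u < u + 1 + v := lt_of_lt_of_le (lt1 u) (le_add_of_nonneg_right (zero_le' v))
  have h1 : u + t < (u + 1) + (v + t) := by grind
  have h2 : u < (u + 1 + t) + v := by
    have := zero_le' t
    grind
  rw [Val_iff hQ h1, Val_iff hQ h2]
  have e1 : u + 1 + (v + t) = u + 1 + t + v := by ring
  have e2 : ∀ X : N.M, X + (u + 1) + (u + t) = X + (u + 1 + t) + u := fun X => by ring
  rw [e1, e2]

section arith

variable {N : L2Structure.{u}} [IsModelRCA0 N]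

theorem ar1 {h y1 y2 i f l1 L : N.M} (hi : i < L) :
    h + y1 + i < (y1 + y1 + f + l1 + (h + L) + 1 + y2) + y2 := by
  have h1 := zero_le' y1
  have h2 := zero_le' y2
  have h3 := zero_le' f
  have h4 := zero_le' l1
  have h5 := zero_le' h
  have h6 := lt1 (y1 + y1 + f + l1 + (h + L))
  grind

theorem ar2 {h y1 y2 j f f' l1 L g : N.M} (hj : j < l1) (h0 : f' < y1) :
    f' + j < y1 + y1 + f + l1 + (h + L) + 1 + (y2 + y2) := by
  have h1 := zero_le' y1
  have h2 := zero_le' y2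
  have h3 := zero_le' f
  have h4 := zero_le' l1
  have h5 := zero_le' h
  have h7 := zero_le' L
  have h6 := lt1 (y1 + y1 + f + l1 + (h + L))
  grind

theorem ar3 {h y1 y2 j f l1 L : N.M} (hj : j < l1) :
    f + (y1 + y1) + j < y1 + y1 + f + l1 + (h + L) + 1 + (y2 + y2) := by
  have h1 := zero_le' y1
  have h2 := zero_le' y2
  have h3 := zero_le' f
  have h4 := zero_le' l1
  have h5 := zero_le' h
  have h7 := zero_le' L
  have h6 := lt1 (y1 + y1 + f + l1 + (h + L))
  grind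

theorem ar4 {h y1 y2 f l1 L : N.M} :
    (y1 + y1 + f + l1 + (h + L) + 1) + ((y1 + y1) + (y2 + y2) + f) + l1 ≤
      (y1 + y1 + f + l1 + (h + L) + 1) + (y2 + y2) +
        ((y1 + y1 + f + l1 + (h + L) + 1) + (y2 + y2)) := by
  have h1 := zero_le' y1
  have h2 := zero_le' y2
  have h3 := zero_le' f
  have h4 := zero_le' l1
  have h5 := zero_le' h
  have h7 := zero_le' L
  have h6 := lt1 (y1 + y1 + f + l1 + (h + L))
  grind

theorem ar5 {f' n1 y1 y2 h : N.M} (h1 : f' < n1) (h2 : n1 ≤ y1) : f' < y1 + y2 + h := by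
  have h3 := zero_le' y2
  have h4 := zero_le' h
  grind

theorem ar6 {f f' g l1 : N.M} (h1 : f + l1 ≤ g) (h2 : f' + l1 ≤ g) :
    f + f' < g + 1 + (g + 1) := by
  have h3 := zero_le' l1
  have h4 := lt1 g
  grind

end arith

theorem solved_of_mid {C G : Set N.M} (hC : C ∈ N.Sets) (hG : MinLang C G) (hM : Mid C G) :
    Solved C := by
  obtain ⟨Q, hQD, hQG, hQ⟩ := exists_point hC hG
  have hVD : ∀ {s t : Ctx N → N.M}, Tm s → Tm t → D0 (fun v => Val C Q (s v) (t v)) :=
    fun hs ht => Val_D0 hC hQD hs ht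
  -- the centres
  have hB : D0 (fun v : Ctx N => ∃ q, q = Q (v 0) ∧ Val C Q (v 1) (q + v 0)) :=
    D0.ex (D0.and (fun_D0 hQD (Tm.var 1) (Tm.var 0)) (hVD (Tm.var 2) ((Tm.var 0).add (Tm.var 1))))
  obtain ⟨J, A, hJD, hA, hJ, hJA⟩ := exists_conv
    (B := fun n i => ∃ q, q = Q n ∧ Val C Q i (q + n)) hB
  have hJA' : ∀ n i, i < n → (Val C Q i (Q (J n) + J n) ↔ i ∈ A) := by
    intro n i hi
    rw [← hJA n i hi]
    constructor
    · intro h; exact ⟨_, rfl, h⟩
    · rintro ⟨_, rfl, h⟩; exact h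
  -- windows
  have hwin : ∀ n i, i < n → (Q (J n) + J n + i ∈ C ↔ Val C Q i 0) := by
    intro n i hi
    have h1 : i < J n + 0 := by rw [add_zero]; exact lt_of_lt_of_le hi (hJ n)
    rw [Val_iff hQ h1, add_zero]
  -- the claim
  have claim : ∀ L, ∃ h, ∀ b, ∃ n, b ≤ n ∧ (∀ i, i < L → (Val C Q (h + i) 0 ↔ i ∈ A)) ∧
      ∀ i, i < L → (h + (Q (J n) + J n) + i ∈ A ↔ i ∈ A) := by
    intro L
    -- the word `w0`
    obtain ⟨t0, ht0, ht0A⟩ : ∃ t0, pr t0 L ∈ G ∧ ∀ i, i < L → (t0 + i ∈ C ↔ i ∈ A) := by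
      set v := Q (J L) + J L with hv
      refine ⟨Q (L + v) + L, ?_, fun i hi => ?_⟩
      · refine hG.sub (Q (L + v)) (L + v + (L + v)) L _ L (hQG (L + v)) ?_ (EqW.refl _ _ _)
        have := zero_le' v
        grind
      · rw [← hJA' L i hi, Val_iff hQ (m := L) (lt_of_lt_of_le hi
          (le_add_of_nonneg_right (zero_le' v)))]
    obtain ⟨t1, l1, ht1, hl1, hE1, hmid⟩ := hM t0 L ht0
    obtain ⟨g, hg⟩ := two_occ hG ht1
    -- occurrences of `w1` near `2y` and `-2y`
    have hocc : ∀ y, ∃ f f' h, f + l1 ≤ g ∧ f' + l1 ≤ g ∧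
        (∀ i, i < l1 → (Val C Q (f + (y + y) + i) 0 ↔ t1 + i ∈ C)) ∧
        (∀ i, i < l1 → (Val C Q (f' + i) (y + y) ↔ t1 + i ∈ C)) ∧ f + f' = h + h := by
      intro y
      have hn' := hQG (y + y + g)
      obtain ⟨f, f', h, h1, h2, h3, h4, h5⟩ := hg _ _ hn' (y + y + g + (y + y)) g
        (y + y + g) (by ring) (by grind) (by
          have := zero_le' (y + y)
          grind)
      refine ⟨f, f', h, h1, h2, fun i hi => ?_, fun i hi => ?_, h5⟩
      · have hlt : f + (y + y) + i < y + y + g + 0 := by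
          rw [add_zero]; grind
        rw [Val_iff hQ hlt, add_zero, ← h3 i hi]
        have e : Q (y + y + g) + (y + y + g) + (f + (y + y) + i) =
            Q (y + y + g) + (y + y + g + (y + y)) + f + i := by ring
        rw [e]
      · have hlt : f' + i < g + (y + y) := by
          have := zero_le' (y + y)
          grind
        rw [Val_iff hQ hlt, ← h4 i hi]
        have e : Q (g + (y + y)) + g + (f' + i) = Q (y + y + g) + g + f' + i := by
          have : g + (y + y) = y + y + g := by ring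
          rw [this]; ring
        rw [e]
    -- pigeonhole
    obtain ⟨f, f', h, hfg, hf'g, hh, hinf⟩ : ∃ f f' h, f + l1 ≤ g ∧ f' + l1 ≤ g ∧ f + f' = h + h ∧
        ∀ b, ∃ n, b ≤ n ∧
          (∀ i, i < l1 → (Val C Q (f + ((Q (J n) + J n) + (Q (J n) + J n)) + i) 0 ↔ t1 + i ∈ C)) ∧
          (∀ i, i < l1 → (Val C Q (f' + i) ((Q (J n) + J n) + (Q (J n) + J n)) ↔ t1 + i ∈ C)) := by
      by_contra hcon
      push Not at hcon
      obtain ⟨b, hb⟩ := bounding (Q := fun e b => ∀ f f' h, e = pr f f' → f + l1 ≤ g →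
        f' + l1 ≤ g → f + f' = h + h → ∀ n, b ≤ n → ∀ j, j = J n → ∀ q, q = Q j →
          (∀ i, i < l1 → (Val C Q (f + ((q + j) + (q + j)) + i) 0 ↔ t1 + i ∈ C)) →
          ¬ (∀ i, i < l1 → (Val C Q (f' + i) ((q + j) + (q + j)) ↔ t1 + i ∈ C)))
        (by
          refine D0.all (D0.all (D0.all (D0.imp (by (repeat' (first | exact Tm.zero | exact Tm.one | exact Tm.var _ | assumption | refine Tm.add ?_ ?_ | refine Tm.mul ?_ ?_ | refine Tm.pr ?_ ?_ | exact Tm.const _ | refine MemC_D0 ?_ ?_ | refine IsC_D0 ?_ | refine D0.and ?_ ?_ | refine D0.or ?_ ?_ | refine D0.ex ?_ | refine D0.all ?_ | refine D0.iff ?_ ?_ | refine D0.imp ?_ ?_ | refine D0.not ?_ | refine D0.lt ?_ ?_ | refine D0.le ?_ ?_ | refine D0.eq ?_ ?_ | refine D0.mem ?_ ?_ | exact D0.true | exact D0.false | exact D0.const _))) (D0.imp (by (repeat' (first | exact Tm.zero | exact Tm.one | exact Tm.var _ | assumption | refine Tm.add ?_ ?_ | refine Tm.mul ?_ ?_ | refine Tm.pr ?_ ?_ | exact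 Tm.const _ | refine MemC_D0 ?_ ?_ | refine IsC_D0 ?_ | refine D0.and ?_ ?_ | refine D0.or ?_ ?_ | refine D0.ex ?_ | refine D0.all ?_ | refine D0.iff ?_ ?_ | refine D0.imp ?_ ?_ | refine D0.not ?_ | refine D0.lt ?_ ?_ | refine D0.le ?_ ?_ | refine D0.eq ?_ ?_ | refine D0.mem ?_ ?_ | exact D0.true | exact D0.false | exact D0.const _))) (D0.imp (by (repeat' (first | exact Tm.zero | exact Tm.one | exact Tm.var _ | assumption | refine Tm.add ?_ ?_ | refine Tm.mul ?_ ?_ | refine Tm.pr ?_ ?_ | exact Tm.const _ | refine MemC_D0 ?_ ?_ | refine IsC_D0 ?_ | refine D0.and ?_ ?_ | refine D0.or ?_ ?_ | refine D0.ex ?_ | refine D0.all ?_ | refine D0.iff ?_ ?_ | refine D0.imp ?_ ?_ | refine D0.not ?_ | refine D0.lt ?_ ?_ | refine D0.le ?_ ?_ | refine D0.eq ?_ ?_ | refine D0.mem ?_ ?_ | exact D0.true | exact D0.false | exact D0.const _)))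
            (D0.imp (by (repeat' (first | exact Tm.zero | exact Tm.one | exact Tm.var _ | assumption | refine Tm.add ?_ ?_ | refine Tm.mul ?_ ?_ | refine Tm.pr ?_ ?_ | exact Tm.const _ | refine MemC_D0 ?_ ?_ | refine IsC_D0 ?_ | refine D0.and ?_ ?_ | refine D0.or ?_ ?_ | refine D0.ex ?_ | refine D0.all ?_ | refine D0.iff ?_ ?_ | refine D0.imp ?_ ?_ | refine D0.not ?_ | refine D0.lt ?_ ?_ | refine D0.le ?_ ?_ | refine D0.eq ?_ ?_ | refine D0.mem ?_ ?_ | exact D0.true | exact D0.false | exact D0.const _))) (D0.all (D0.imp (by (repeat' (first | exact Tm.zero | exact Tm.one | exact Tm.var _ | assumption | refine Tm.add ?_ ?_ | refine Tm.mul ?_ ?_ | refine Tm.pr ?_ ?_ | exact Tm.const _ | refine MemC_D0 ?_ ?_ | refine IsC_D0 ?_ | refine D0.and ?_ ?_ | refine D0.or ?_ ?_ | refine D0.ex ?_ | refine D0.all ?_ | refine D0.iff ?_ ?_ | refine D0.imp ?_ ?_ | refine D0.not ?_ | refine D0.lt ?_ ?_ | refine D0.le ?_ ?_ | refine D0.eq ?_ ?_ | refine D0.mem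 ?_ ?_ | exact D0.true | exact D0.false | exact D0.const _))) (D0.all (D0.imp (fun_D0 hJD (Tm.var 1)
            (Tm.var 0)) (D0.all (D0.imp (fun_D0 hQD (Tm.var 1) (Tm.var 0)) (D0.imp ?_
            (D0.not ?_))))))))))))))
          · exact D0.all (D0.imp (by (repeat' (first | exact Tm.zero | exact Tm.one | exact Tm.var _ | assumption | refine Tm.add ?_ ?_ | refine Tm.mul ?_ ?_ | refine Tm.pr ?_ ?_ | exact Tm.const _ | refine MemC_D0 ?_ ?_ | refine IsC_D0 ?_ | refine D0.and ?_ ?_ | refine D0.or ?_ ?_ | refine D0.ex ?_ | refine D0.all ?_ | refine D0.iff ?_ ?_ | refine D0.imp ?_ ?_ | refine D0.not ?_ | refine D0.lt ?_ ?_ | refine D0.le ?_ ?_ | refine D0.eq ?_ ?_ | refine D0.mem ?_ ?_ | exact D0.true | exact D0.false | exact D0.const _))) (D0.iff (hVD (by (repeat' (first | exact Tm.zero | exact Tm.one | exact Tm.var _ | assumption | refine Tm.add ?_ ?_ | refine Tm.mul ?_ ?_ | refine Tm.pr ?_ ?_ | exact Tm.const _))) (by (repeat' (first | exact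 Tm.zero | exact Tm.one | exact Tm.var _ | assumption | refine Tm.add ?_ ?_ | refine Tm.mul ?_ ?_ | refine Tm.pr ?_ ?_ | exact Tm.const _)))) (by (repeat' (first | exact Tm.zero | exact Tm.one | exact Tm.var _ | assumption | refine Tm.add ?_ ?_ | refine Tm.mul ?_ ?_ | refine Tm.pr ?_ ?_ | exact Tm.const _ | refine MemC_D0 ?_ ?_ | refine IsC_D0 ?_ | refine D0.and ?_ ?_ | refine D0.or ?_ ?_ | refine D0.ex ?_ | refine D0.all ?_ | refine D0.iff ?_ ?_ | refine D0.imp ?_ ?_ | refine D0.not ?_ | refine D0.lt ?_ ?_ | refine D0.le ?_ ?_ | refine D0.eq ?_ ?_ | refine D0.mem ?_ ?_ | exact D0.true | exact D0.false | exact D0.const _)))))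
          · exact D0.all (D0.imp (by (repeat' (first | exact Tm.zero | exact Tm.one | exact Tm.var _ | assumption | refine Tm.add ?_ ?_ | refine Tm.mul ?_ ?_ | refine Tm.pr ?_ ?_ | exact Tm.const _ | refine MemC_D0 ?_ ?_ | refine IsC_D0 ?_ | refine D0.and ?_ ?_ | refine D0.or ?_ ?_ | refine D0.ex ?_ | refine D0.all ?_ | refine D0.iff ?_ ?_ | refine D0.imp ?_ ?_ | refine D0.not ?_ | refine D0.lt ?_ ?_ | refine D0.le ?_ ?_ | refine D0.eq ?_ ?_ | refine D0.mem ?_ ?_ | exact D0.true | exact D0.false | exact D0.const _))) (D0.iff (hVD (by (repeat' (first | exact Tm.zero | exact Tm.one | exact Tm.var _ | assumption | refine Tm.add ?_ ?_ | refine Tm.mul ?_ ?_ | refine Tm.pr ?_ ?_ | exact Tm.const _))) (by (repeat' (first | exact Tm.zero | exact Tm.one | exact Tm.var _ | assumption | refine Tm.add ?_ ?_ | refine Tm.mul ?_ ?_ | refine Tm.pr ?_ ?_ | exact Tm.const _)))) (by (repeat' (first | exact Tm.zero | exact Tm.one | exact Tm.var _ | assumption |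 refine Tm.add ?_ ?_ | refine Tm.mul ?_ ?_ | refine Tm.pr ?_ ?_ | exact Tm.const _ | refine MemC_D0 ?_ ?_ | refine IsC_D0 ?_ | refine D0.and ?_ ?_ | refine D0.or ?_ ?_ | refine D0.ex ?_ | refine D0.all ?_ | refine D0.iff ?_ ?_ | refine D0.imp ?_ ?_ | refine D0.not ?_ | refine D0.lt ?_ ?_ | refine D0.le ?_ ?_ | refine D0.eq ?_ ?_ | refine D0.mem ?_ ?_ | exact D0.true | exact D0.false | exact D0.const _))))))
        (pr (g + 1) (g + 1)) (fun e _ => by
          by_cases he : ∃ f f' h, e = pr f f' ∧ f + l1 ≤ g ∧ f' + l1 ≤ g ∧ f + f' = h + h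
          · obtain ⟨f, f', h, rfl, h1, h2, h3⟩ := he
            obtain ⟨b, hb⟩ := hcon f f' h h1 h2 h3
            refine ⟨b, fun f1 f1' h' e1 _ _ _ n hn j hj q hq hA1 hA2 => ?_⟩
            obtain ⟨rfl, rfl⟩ := pr_inj e1
            subst hj hq
            obtain ⟨i, hi, hne⟩ := hb n hn hA1
            rcases hne with hne | hne
            · exact hne.2 ((hA2 i hi).1 hne.1)
            · exact hne.1 ((hA2 i hi).2 hne.2)
          · exact ⟨0, fun f f' h e1 h1 h2 h3 => absurd ⟨f, f', h, e1, h1, h2, h3⟩ he⟩)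
      obtain ⟨f, f', h, h1, h2, h3, h4, h5⟩ := hocc (Q (J b) + J b)
      obtain ⟨k, hk, hbk⟩ := hb (pr f f') (pr_lt_pr (ar6 h1 h2))
      exact hbk f f' h rfl h1 h2 h5 b hk.le _ rfl _ rfl h3 h4
    -- midpoints
    have hmp : ∀ n1 n2, f' < n1 →
        (∀ i, i < l1 → (Val C Q (f + ((Q (J n1) + J n1) + (Q (J n1) + J n1)) + i) 0 ↔ t1 + i ∈ C)) →
        (∀ i, i < l1 → (Val C Q (f' + i) ((Q (J n2) + J n2) + (Q (J n2) + J n2)) ↔ t1 + i ∈ C)) →
        ∀ i, i < L → (Val C Q (h + (Q (J n1) + J n1) + i) (Q (J n2) + J n2) ↔ i ∈ A) := by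
      intro n1 n2 hn1 ha hb i hi
      have hy1 : n1 ≤ Q (J n1) + J n1 :=
        (hJ n1).trans (le_add_of_nonneg_left (zero_le' _))
      set y1 := Q (J n1) + J n1
      set y2 := Q (J n2) + J n2
      have hf'k : f' < y1 + y2 + h := ar5 hn1 hy1
      obtain ⟨k, hk⟩ := exists_sub hf'k.le
      have hk0 : 0 < k := by
        rcases eq_zero_or_succ k with rfl | ⟨k', rfl⟩
        · rw [add_zero] at hk
          exact absurd hk hf'k.ne'
        · exact lt_of_le_of_lt (zero_le' k') (lt1 k')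
      have hkk : f' + (k + k) = (y1 + y1) + (y2 + y2) + f := by
        have e1 : f' + (k + k) + f' = (y1 + y1) + (y2 + y2) + f + f' := by
          calc f' + (k + k) + f' = (f' + k) + (f' + k) := by ring
            _ = (y1 + y2 + h) + (y1 + y2 + h) := by rw [← hk]
            _ = (y1 + y1) + (y2 + y2) + (h + h) := by ring
            _ = (y1 + y1) + (y2 + y2) + (f + f') := by rw [hh]
            _ = _ := by ring
        exact add_cancel' e1
      set M := y1 + y1 + f + l1 + (h + L) + 1 with hMdef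
      have hword : pr (Q (M + (y2 + y2)) + M + f') (k + k + l1) ∈ G := by
        have e0 : Q (M + (y2 + y2)) + (M + f') = Q (M + (y2 + y2)) + M + f' :=
          (add_assoc _ _ _).symm
        refine hG.sub (Q (M + (y2 + y2))) (M + (y2 + y2) + (M + (y2 + y2))) (M + f') _
          (k + k + l1) (hQG _) ?_ (by rw [e0]; exact EqW.refl C _ _)
        calc M + f' + (k + k + l1) = M + (f' + (k + k)) + l1 := by ring
          _ = M + ((y1 + y1) + (y2 + y2) + f) + l1 := by rw [hkk]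
          _ ≤ M + (y2 + y2) + (M + (y2 + y2)) := ar4
      have hval := hmid _ _ k hword hk0 le_rfl (fun j hj => ?_) (fun j hj => ?_) i hi
      · have hlt : h + y1 + i < (M + y2) + y2 := ar1 hi
        rw [Val_iff hQ hlt, ← ht0A i hi, ← hval]
        have e1 : M + y2 + y2 = M + (y2 + y2) := by ring
        have e2 : Q (M + (y2 + y2)) + (M + y2) + (h + y1 + i)
            = Q (M + (y2 + y2)) + M + (y1 + y2 + h) + i := by ring
        have e3 : Q (M + (y2 + y2)) + M + f' + k + i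
            = Q (M + (y2 + y2)) + M + (f' + k) + i := by ring
        rw [e1, e2, e3, hk]
      · have hlt : f' + j < M + (y2 + y2) := ar2 (g := g) hj (lt_of_lt_of_le hn1 hy1)
        rw [← hb j hj, Val_iff hQ hlt]
        have e : Q (M + (y2 + y2)) + M + f' + j = Q (M + (y2 + y2)) + M + (f' + j) := by ring
        rw [e]
      · have hlt : f + (y1 + y1) + j < M + (y2 + y2) + 0 := by
          rw [add_zero]
          exact ar3 hj
        rw [← ha j hj, Val_iff hQ hlt, add_zero]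
        have e : Q (M + (y2 + y2)) + M + f' + (k + k) + j
            = Q (M + (y2 + y2)) + (M + (y2 + y2)) + (f + (y1 + y1) + j) := by
          calc Q (M + (y2 + y2)) + M + f' + (k + k) + j
              = Q (M + (y2 + y2)) + M + (f' + (k + k)) + j := by ring
            _ = _ := by rw [hkk]; ring
        rw [e]
    refine ⟨h, fun b => ?_⟩
    obtain ⟨n1, hn1, ha1, hb1⟩ := hinf (max b (f' + 1))
    have hfn1 : f' < n1 := lt_of_lt_of_le (lt1 f') ((le_max_right _ _).trans hn1)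
    refine ⟨n1, (le_max_left _ _).trans hn1, fun i hi => ?_, fun i hi => ?_⟩
    · rw [← hmp n1 n1 hfn1 ha1 hb1 i hi, ← Val_shift hQ (h + i) 0 (Q (J n1) + J n1), zero_add]
      have e : h + i + (Q (J n1) + J n1) = h + (Q (J n1) + J n1) + i := by ring
      rw [e]
    · obtain ⟨n2, hn2, ha2, hb2⟩ := hinf (h + (Q (J n1) + J n1) + i + 1)
      rw [← hmp n1 n2 hfn1 ha1 hb2 i hi, hJA' n2 _ (lt_of_lt_of_le (lt1 _) hn2)]
  -- the solution
  refine solve (P := {z | (z ∈ A ↔ 0 ∈ A)}) hC (comp_D0 (P := fun z => (z ∈ A ↔ (0 : N.M) ∈ A))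
    (by (repeat' (first | exact Tm.zero | exact Tm.one | exact Tm.var _ | assumption | refine Tm.add ?_ ?_ | refine Tm.mul ?_ ?_ | refine Tm.pr ?_ ?_ | exact Tm.const _ | refine MemC_D0 ?_ ?_ | refine IsC_D0 ?_ | refine D0.and ?_ ?_ | refine D0.or ?_ ?_ | refine D0.ex ?_ | refine D0.all ?_ | refine D0.iff ?_ ?_ | refine D0.imp ?_ ?_ | refine D0.not ?_ | refine D0.lt ?_ ?_ | refine D0.le ?_ ?_ | refine D0.eq ?_ ?_ | refine D0.mem ?_ ?_ | exact D0.true | exact D0.false | exact D0.const _)))) (0 ∈ A) fun x => ?_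
  obtain ⟨h, hh⟩ := claim (x + 1)
  obtain ⟨n, hn, h1, h2⟩ := hh (h + x + 1)
  have hwin' : ∀ z, z ≤ x → (z + (h + (Q (J n) + J n)) ∈ C ↔ z ∈ A) := by
    intro z hz
    have e : z + (h + (Q (J n) + J n)) = Q (J n) + J n + (h + z) := by ring
    have hlt : h + z < n := lt_of_lt_of_le (lt1_of_le (by gcongr)) hn
    rw [e, hwin n _ hlt, h1 z (lt1_of_le hz)]
  have h0 : (0 : N.M) < x + 1 := lt1_of_le (zero_le' x)
  refine ⟨h + (Q (J n) + J n), ?_, ?_, ?_, ?_⟩
  · have h3 : n ≤ Q (J n) + J n := (hJ n).trans (le_add_of_nonneg_left (zero_le' _))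
    have h4 := zero_le' h
    have h5 := lt1 (h + x)
    grind
  · have h3 := h2 0 h0
    rw [add_zero] at h3
    exact h3
  · have h3 := hwin' 0 (zero_le' x)
    rwa [zero_add] at h3
  · intro z hz hzP
    exact (hwin' z hz).trans hzP

end Pool.Agent.H675R2.HT
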