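import Mathlib
import Pool.Agent.H675R2.HT.Succ

namespace Pool.Agent.H675R2.HT

open Pool.Agent.Helper617.RM

universe u

variable {N : L2Structure.{u}} [IsModelRCA0 N] [Sig1 N]

/-- every set of a model of arithmetical comprehension, seen as a two-colouring, has an infinite
set whose elements and pairwise sums all have the same colour -/
theorem solved_all {C : Set N.M} (hC : C ∈ N.Sets) : Solved C := by
  obtain ⟨G, hG⟩ := exists_minLang hC
  by_cases hM : Mid C G
  · exact solved_of_mid hC hG hM
  · exact solved_of_not_mid hC hG hM

end Pool.Agent.H675R2.HT
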